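import Pool.Agent.H10.IEP.Targets
import Pool.Agent.H81.HD.RB

/-!
# MP_e37c09_lc: module RP (`GoodQ` is locally definable)
-/

open Ordinal Cardinal Order Set
open scoped ZFSet
open _root_.HD

universe u

namespace Pool.Agent.H20.IEP

open Pool.Agent.H10.IEP Pool.Agent.H81.HD.RB

theorem not_NF_iff {F : ZFSet.{u}} : ¬ NF F ↔ Fn F := by
  constructor
  · intro h s x y hx hy
    by_contra hne
    exact h ⟨s, x, y, hx, hy, hne⟩
  · rintro h ⟨s, x, y, hx, hy, hne⟩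
    exact hne (h s x y hx hy)

theorem pf_RP (hRC : T_RC.{u}) (hRL : T_RL.{u}) (hLA : T_LA.{u}) (hLP : T_LP.{u}) :
    T_RP.{u} := by
  refine Loc.congr (P := fun v => (v 0).IsOrdinal ∧ (v 1).IsOrdinal ∧
    ((v 1).IsOrdinal ∧ ∃ D : Cardinal.{u}, (v 1).rank = D.ord ∧ D.IsRegular ∧
      D.IsStrongLimit ∧ ℵ₀ < D) ∧
    ∃ A, ((v 0).IsOrdinal ∧ A = V_ (v 0).rank) ∧ ∀ κ ∈ v 0,
      (∃ w : ZFSet.{u}, w = (ω : Ordinal.{u}).toZFSet ∧ ¬ κ ∈ w) →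
      (κ.IsOrdinal ∧ κ.IsOrdinal ∧ Cf κ.rank κ.rank) → v 1 ∈ κ → ∀ μ ∈ v 1,
      (∃ w : ZFSet.{u}, w = (ω : Ordinal.{u}).toZFSet ∧ ¬ μ ∈ w) → ∀ f ∈ A,
      ((v 0).IsOrdinal ∧ ODb (v 0).rank f) → ¬ NF f →
      ¬ ∀ i ∈ v 1, (μ.IsOrdinal ∧ κ.IsOrdinal ∧ i.IsOrdinal ∧
        Ph μ.rank κ.rank f i.rank)) ?_ ?_
  · refine (loc_ord 0).and ((loc_ord 1).and (Loc.and (hRC.ren fun n => if n = 0 then 1 else n)
      (Loc.ex (Loc.and (loc_V 1 0) ?_) ?_)))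
    · refine Loc.allMem 1 ((loc_not_mem_omega 0).imp ((hLA.ren fun _ => 0).imp
        ((Loc.mem 3 0).imp (Loc.allMem 3 ((loc_not_mem_omega 0).imp (Loc.allMem 2
          (Loc.imp (hRL.ren fun n => if n = 0 then 0 else 4) ((loc_NF 0).not.imp
            (Loc.not (Loc.allMem 5 (hLP.ren fun n => if n = 0 then 2 else if n = 1 then 3 else
              if n = 2 then 1 else 0)))))))))))
    · rintro η hη v hv x ⟨⟨h1, rfl⟩, -⟩
      rw [ZFSet.mem_vonNeumann, ZFSet.rank_vonNeumann]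
      exact ZFSet.mem_vonNeumann.1 (hv 0)
  · intro v
    refine and_congr_right fun h0 => and_congr_right fun h1 => ?_
    obtain ⟨β, hβ⟩ := ord_of h0
    obtain ⟨δ, hδ⟩ := ord_of h1
    rw [hβ, hδ]
    simp only [rank_toZFSet]
    unfold GoodQ
    constructor
    · rintro ⟨hD, h⟩
      refine ⟨⟨ZFSet.isOrdinal_toZFSet _, hD⟩, _, ⟨ZFSet.isOrdinal_toZFSet _, rfl⟩, ?_⟩
      rintro κ hκ ⟨w, rfl, hw⟩ ⟨-, -, hc⟩ hδκ μ hμ ⟨w', rfl, hw'⟩ f - ⟨-, hod⟩ hNF hall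
      obtain ⟨κ, hκ', rfl⟩ := mem_toZFSet_iff.1 hκ
      obtain ⟨μ, hμ', rfl⟩ := mem_toZFSet_iff.1 hμ
      rw [rank_toZFSet] at hc
      rw [toZFSet_mem_toZFSet_iff, not_lt] at hw hw'
      rw [toZFSet_mem_toZFSet_iff] at hδκ
      refine h μ hμ' hw' κ hκ' hw hc hδκ f hod (not_NF_iff.1 hNF) fun i hi => ?_
      have := (hall _ (toZFSet_mem_toZFSet_iff.2 hi)).2.2.2
      rw [rank_toZFSet, rank_toZFSet, rank_toZFSet] at this
      exact this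
    · rintro ⟨⟨-, hD⟩, A, ⟨-, rfl⟩, h⟩
      refine ⟨hD, fun μ hμ hω κ hκ hκω hc hδκ f hod hfun hall => ?_⟩
      refine h _ (toZFSet_mem_toZFSet_iff.2 hκ) ⟨_, rfl, ?_⟩ ⟨ZFSet.isOrdinal_toZFSet _,
        ZFSet.isOrdinal_toZFSet _, ?_⟩ (toZFSet_mem_toZFSet_iff.2 hδκ) _
        (toZFSet_mem_toZFSet_iff.2 hμ) ⟨_, rfl, ?_⟩ f ?_
        ⟨ZFSet.isOrdinal_toZFSet _, hod⟩ (not_NF_iff.2 hfun) ?_
      · rw [toZFSet_mem_toZFSet_iff, not_lt]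
        exact hκω
      · rw [rank_toZFSet]
        exact hc
      · rw [toZFSet_mem_toZFSet_iff, not_lt]
        exact hω
      · obtain ⟨N, hN, -, hden⟩ := hod
        exact ZFSet.vonNeumann_subset_of_le hN.le hden.1
      · intro i hi
        obtain ⟨i, hi', rfl⟩ := mem_toZFSet_iff.1 hi
        refine ⟨ZFSet.isOrdinal_toZFSet _, ZFSet.isOrdinal_toZFSet _,
          ZFSet.isOrdinal_toZFSet _, ?_⟩
        rw [rank_toZFSet, rank_toZFSet, rank_toZFSet]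
        exact hall i hi'

end Pool.Agent.H20.IEP
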